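import Pool.Agent.X286.Gn.Dyad

/-!
# The abc conjecture for finite subsets of the line: points with few exponents, all heights

Let `α_1, …, α_q` be distinct points of the projective line over `ℚ` and `S` a finite set of primes.
For all `n` and `ε > 0` there is `κ` such that `h(x) ≤ κ ∑_{p ∉ S} ∑_ℓ λ⁽¹⁾_p(α_ℓ, x)` holds for all
points `x`, of whatever height, whose intersection multiplicities with three of the `α_ℓ` at the
primes outside `S` take at most `n` different values, apart from at most `C X ^ ε` of those whose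
right side (without `κ`) is at most `log X`.
-/

set_option autoImplicit false

namespace Pool.Agent.Results.MP_4d5ce1_nt.FewExponents

open Finset

/-- Normalised coprime integer coordinates: each point `[x₀ : x₁]` of the projective line over `ℚ`
has exactly one such pair. -/
def Nrm (x : ℤ × ℤ) : Prop := IsCoprime x.1 x.2 ∧ (0 < x.2 ∨ x.2 = 0 ∧ 0 < x.1)

/-- the integer `x₀ a₁ - x₁ a₀`; for coprime coordinates of `x` and `a` the exponent of `p` in it is
the intersection multiplicity of `x` and `a` at `p` -/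
def form (a x : ℤ × ℤ) : ℤ := x.1 * a.2 - x.2 * a.1

/-- The sum over the primes `p ∉ S` and over `ℓ` of the truncated local heights
`λ⁽¹⁾_p(α_ℓ, x)`: for coprime coordinates of `x` and `α_ℓ` this is `log p` if
`p ∣ x₀ a₁ - x₁ a₀` and `0` otherwise. -/
noncomputable def N1 {q : ℕ} (α : Fin q → ℤ × ℤ) (S : Finset ℕ) (x : ℤ × ℤ) : ℝ :=
  ∑ i, ∑ p ∈ (form (α i) x).natAbs.primeFactors \ S, Real.log p

/-- The absolute logarithmic height of the point with the coprime coordinates `x`. -/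
noncomputable def hgt (x : ℤ × ℤ) : ℝ := Real.log (max x.1.natAbs x.2.natAbs : ℕ)

/-- the number of different exponents of the primes outside `S` in the factorisation of `m` -/
def exponents (S : Finset ℕ) (m : ℕ) : ℕ := ((m.primeFactors \ S).image m.factorization).card

/-- The points `x`, different from all the `α_ℓ`, with
`∑_{p ∉ S} ∑_ℓ λ⁽¹⁾_p(α_ℓ, x) ≤ log X`, such that at most `n` different positive intersection
multiplicities with `α_ℓ` occur outside `S`, for three different values of `ℓ`, and such that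
`κ ∑_{p ∉ S} ∑_ℓ λ⁽¹⁾_p(α_ℓ, x) < h(x)`; there is no bound on the height of `x`. -/
def Exceptional {q : ℕ} (α : Fin q → ℤ × ℤ) (S : Finset ℕ) (n : ℕ) (κ X : ℝ) : Set (ℤ × ℤ) :=
  {x | Nrm x ∧ (∀ i, form (α i) x ≠ 0) ∧
    (∃ f : Fin 3 → Fin q, Function.Injective f ∧
      ∀ k, exponents S (form (α (f k)) x).natAbs ≤ n) ∧
    N1 α S x ≤ Real.log X ∧ κ * N1 α S x < hgt x}

open Pool.Agent.X286.Sz Pool.Agent.X286.Gn

/-- the radical of the product of the forms outside `S`, with multiplicities -/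
def rad {q : ℕ} (α : Fin q → ℤ × ℤ) (S : Finset ℕ) (x : ℤ × ℤ) : ℕ :=
  ∏ i, ∏ p ∈ (form (α i) x).natAbs.primeFactors \ S, p

theorem prime_of {m : ℕ} {S : Finset ℕ} {p : ℕ} (h : p ∈ m.primeFactors \ S) : p.Prime :=
  Nat.prime_of_mem_primeFactors (mem_sdiff.1 h).1

theorem rad_pos {q : ℕ} (α : Fin q → ℤ × ℤ) (S : Finset ℕ) (x : ℤ × ℤ) : 0 < rad α S x :=
  prod_pos fun _ _ => prod_pos fun _ hp => (prime_of hp).pos

theorem N1_eq {q : ℕ} (α : Fin q → ℤ × ℤ) (S : Finset ℕ) (x : ℤ × ℤ) :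
    N1 α S x = Real.log (rad α S x) := by
  rw [N1, rad]
  push_cast
  rw [Real.log_prod]
  · refine sum_congr rfl fun i _ => ?_
    rw [Real.log_prod]
    intro p hp
    exact_mod_cast (prime_of hp).ne_zero
  · intro i _
    exact prod_ne_zero_iff.2 fun p hp => by exact_mod_cast (prime_of hp).ne_zero

theorem le_rad {q : ℕ} (α : Fin q → ℤ × ℤ) (S : Finset ℕ) (x : ℤ × ℤ) (i : Fin q) :
    ∏ p ∈ (form (α i) x).natAbs.primeFactors \ S, p ≤ rad α S x := by
  refine Nat.le_of_dvd (rad_pos α S x) ?_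
  exact dvd_prod_of_mem (fun i => ∏ p ∈ (form (α i) x).natAbs.primeFactors \ S, p) (mem_univ i)

/-- the product of the primes of `S` -/
def sp (S : Finset ℕ) : ℕ := ∏ p ∈ S.filter Nat.Prime, p

theorem sp_pos (S : Finset ℕ) : 0 < sp S := prod_pos fun _ hp => (mem_filter.1 hp).2.pos

/-- a member of the abc triple is a product of few powers -/
theorem member {L α w : ℤ} {g M n R : ℕ} {S : Finset ℕ} (hw : α * L = g * w) (hα0 : α ≠ 0)
    (hL : L ≠ 0) (hα : α.natAbs ∣ M) (hg : g ∣ M) (hS : sp S ∣ M) (hM : 0 < M)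
    (hn : exponents S L.natAbs ≤ n) (hR : ∏ p ∈ L.natAbs.primeFactors \ S, p ≤ R) :
    Pool.Agent.X286.Sz.PowerProduct (n + (M + 1)) (M + R) w.natAbs := by
  classical
  have hw0 : w ≠ 0 := by
    rintro rfl
    rw [mul_zero] at hw
    exact (mul_ne_zero hα0 hL) hw
  have hg0 : g ≠ 0 := by
    rintro rfl
    simp only [Nat.cast_zero, zero_mul] at hw
    exact (mul_ne_zero hα0 hL) hw
  have key : ∀ p ∈ prs M w.natAbs, p ∈ L.natAbs.primeFactors \ S ∧
      w.natAbs.factorization p = L.natAbs.factorization p := by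
    intro p hp
    rw [prs, mem_filter, Nat.mem_primeFactors] at hp
    obtain ⟨⟨hpp, hpw, _⟩, hpM⟩ := hp
    have hpα : ¬ p ∣ α.natAbs := fun h => hpM (h.trans hα)
    have hpg : ¬ p ∣ g := fun h => hpM (h.trans hg)
    have hpS : p ∉ S := fun h => hpM ((dvd_prod_of_mem (fun p => p)
      (mem_filter.2 ⟨h, hpp⟩)).trans hS)
    have hv : w.natAbs.factorization p = L.natAbs.factorization p := by
      have h1 := congrArg (fun z : ℤ => z.natAbs.factorization p) hw
      simp only [Int.natAbs_mul, Int.natAbs_natCast] at h1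
      rw [Nat.factorization_mul (Int.natAbs_ne_zero.2 hα0) (Int.natAbs_ne_zero.2 hL),
        Nat.factorization_mul hg0 (Int.natAbs_ne_zero.2 hw0)] at h1
      simp only [Finsupp.add_apply] at h1
      rw [Nat.factorization_eq_zero_of_not_dvd hpα,
        Nat.factorization_eq_zero_of_not_dvd hpg, zero_add, zero_add] at h1
      exact h1.symm
    refine ⟨?_, hv⟩
    have hpos := hpp.factorization_pos_of_dvd (Int.natAbs_ne_zero.2 hw0) hpw
    rw [hv] at hpos
    exact mem_sdiff.2 ⟨Nat.mem_primeFactors.2 ⟨hpp, Nat.dvd_of_factorization_pos hpos.ne',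
      Int.natAbs_ne_zero.2 hL⟩, hpS⟩
  refine pp_of (Int.natAbs_ne_zero.2 hw0) hM ?_ ?_ (Nat.le_add_right _ _)
  · refine le_trans (card_le_card ?_) hn
    intro v hv
    obtain ⟨p, hp, rfl⟩ := mem_image.1 hv
    rw [(key p hp).2]
    exact mem_image_of_mem _ (key p hp).1
  · refine le_trans ?_ (hR.trans (Nat.le_add_left _ _))
    exact prod_le_prod_of_subset_of_one_le' (fun p hp => (key p hp).1)
      fun p hp _ => (prime_of hp).one_lt.le

/-- the points of one triple of indices -/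
def Tri {q : ℕ} (α : Fin q → ℤ × ℤ) (S : Finset ℕ) (n : ℕ) (f : Fin 3 → Fin q) (κ X : ℕ) :
    Set (ℤ × ℤ) :=
  {x | IsCoprime x.1 x.2 ∧ 0 < x.2 ∧ (∀ i, form (α i) x ≠ 0) ∧
    (∀ k, exponents S (form (α (f k)) x).natAbs ≤ n) ∧ rad α S x ≤ X ∧
    rad α S x ^ κ < max x.1.natAbs x.2.natAbs}

theorem tri {q : ℕ} (α : Fin q → ℤ × ℤ)
    (hα : ∀ i j, i ≠ j → (α i).1 * (α j).2 ≠ (α j).1 * (α i).2) (S : Finset ℕ) (n : ℕ)
    (f : Fin 3 → Fin q) (hf : Function.Injective f) {ε : ℝ} (hε : 0 < ε) :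
    ∃ (κ : ℕ) (C : ℝ), 0 < C ∧ ∀ X : ℕ, 1 ≤ X → (Tri α S n f κ X).Finite ∧
      (((Tri α S n f κ X).ncard : ℕ) : ℝ) ≤ C * (X : ℝ) ^ ε := by
  set ρ1 := (α (f 0)).1 with hρ1
  set σ1 := (α (f 0)).2 with hσ1
  set ρ2 := (α (f 1)).1 with hρ2
  set σ2 := (α (f 1)).2 with hσ2
  set ρ3 := (α (f 2)).1 with hρ3
  set σ3 := (α (f 2)).2 with hσ3
  obtain ⟨α1, hα1⟩ : ∃ a, a = σ2 * ρ3 - σ3 * ρ2 := ⟨_, rfl⟩
  obtain ⟨α2, hα2⟩ : ∃ a, a = σ3 * ρ1 - σ1 * ρ3 := ⟨_, rfl⟩
  obtain ⟨α3, hα3⟩ : ∃ a, a = σ1 * ρ2 - σ2 * ρ1 := ⟨_, rfl⟩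
  have h1 : α1 ≠ 0 := by
    rw [hα1]
    intro h
    exact hα (f 2) (f 1) (fun h => absurd (hf h) (by decide)) (by linarith)
  have h2 : α2 ≠ 0 := by
    rw [hα2]
    intro h
    exact hα (f 0) (f 2) (fun h => absurd (hf h) (by decide)) (by linarith)
  have h3 : α3 ≠ 0 := by
    rw [hα3]
    intro h
    exact hα (f 1) (f 0) (fun h => absurd (hf h) (by decide)) (by linarith)
  set M : ℕ := (α1 * α2 * α3).natAbs * sp S with hM
  have hM0 : 0 < M := Nat.mul_pos (Int.natAbs_pos.2 (mul_ne_zero (mul_ne_zero h1 h2) h3)) (sp_pos S)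
  set A0 : ℤ := (|ρ2 * α2| + |ρ1 * α1|) * |α1 * α2 * α3| + (|σ2 * α2| + |σ1 * α1|) *
          |α1 * α2 * α3| with hA0
  have hA00 : 0 ≤ A0 := by positivity
  obtain ⟨κ, C, hC, hd⟩ := dyad (β := ℤ × ℤ) (ι := Fin 3)
    (fun p => ((tau α1 α2 ρ1 σ1 ρ2 σ2 p.1 p.2).num, ((tau α1 α2 ρ1 σ1 ρ2 σ2 p.1 p.2).den : ℤ)))
    (n + (M + 1)) M (A0.natAbs + 1) 1 0 hM0 (Nat.succ_pos _) hε
  refine ⟨κ, C, hC, fun X hX => hd X hX _ ?_⟩
  rintro x ⟨hcop, hpos, hne, hexp, hrX, hlt⟩
  set t : ℚ := (x.1 : ℚ) / x.2 with ht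
  have hnum : t.num = x.1 := Rat.num_div_eq_of_coprime hpos (Int.isCoprime_iff_nat_coprime.1 hcop)
  have hden : (t.den : ℤ) = x.2 :=
    Rat.den_div_eq_of_coprime hpos (Int.isCoprime_iff_nat_coprime.1 hcop)
  have hform : ∀ k, form (α (f k)) x = (α (f k)).2 * t.num - (α (f k)).1 * t.den := by
    intro k
    rw [hnum, hden, form]
    ring
  obtain ⟨g, w1, w2, w3, hg, hw1, hw2, hw3, k, u, v, hu, hv, huv, htau, hP, hx, hy⟩ :=
    three hα1 hα2 hα3 h1 h2 h3 t (by rw [hσ1, hρ1, ← hform 0]; exact hne _)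
      (by rw [hσ2, hρ2, ← hform 1]; exact hne _) (by rw [hσ3, hρ3, ← hform 2]; exact hne _)
  rw [hσ1, hρ1, ← hform 0] at hw1
  rw [hσ2, hρ2, ← hform 1] at hw2
  rw [hσ3, hρ3, ← hform 2] at hw3
  have d1 : α1.natAbs ∣ M := by
    rw [hM, Int.natAbs_mul, Int.natAbs_mul]
    exact ((Nat.dvd_mul_right _ _).trans (Nat.dvd_mul_right _ _)).trans (Nat.dvd_mul_right _ _)
  have d2 : α2.natAbs ∣ M := by
    rw [hM, Int.natAbs_mul, Int.natAbs_mul]
    exact ((Nat.dvd_mul_left _ _).trans (Nat.dvd_mul_right _ _)).trans (Nat.dvd_mul_right _ _)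
  have d3 : α3.natAbs ∣ M := by
    rw [hM, Int.natAbs_mul]
    exact (Nat.dvd_mul_left _ _).trans (Nat.dvd_mul_right _ _)
  have hgM : g ∣ M := hg.trans (Nat.dvd_mul_right _ _)
  have hSM : sp S ∣ M := Nat.dvd_mul_left _ _
  have p1 := member hw1 h1 (hne _) d1 hgM hSM hM0 (hexp 0) (le_rad α S x _)
  have p2 := member hw2 h2 (hne _) d2 hgM hSM hM0 (hexp 1) (le_rad α S x _)
  have p3 := member hw3 h3 (hne _) d3 hgM hSM hM0 (hexp 2) (le_rad α S x _)
  obtain ⟨q1, q2, q3⟩ := hP _ p1 p2 p3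
  refine ⟨rad α S x, max x.1.natAbs x.2.natAbs, k, u, v, rad_pos α S x, hrX, hlt, hu, hv, huv,
    ?_, q1, q2, q3, ?_⟩
  · simp only
    rw [← htau, hnum, hden]
  · rw [pow_one, pow_zero, mul_one]
    have e1 : x.1.natAbs ≤ A0.natAbs * (u + v) := by
      have : (x.1.natAbs : ℤ) ≤ ((A0.natAbs * (u + v) : ℕ) : ℤ) := by
        push_cast
        rw [abs_of_nonneg hA00, ← hnum]
        exact hx
      exact_mod_cast this
    have e2 : x.2.natAbs ≤ A0.natAbs * (u + v) := by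
      have : (x.2.natAbs : ℤ) ≤ ((A0.natAbs * (u + v) : ℕ) : ℤ) := by
        push_cast
        rw [abs_of_nonneg hA00, abs_of_pos hpos, ← hden]
        exact hy
      exact_mod_cast this
    exact (max_le e1 e2).trans (Nat.mul_le_mul_right _ (Nat.le_succ _))

/-- **Theorem.** Let `α_1, …, α_q` be distinct points of the projective line over `ℚ` (coprime
integer coordinates), `S` a finite set of primes, `n` a natural number and `ε > 0`. There are `κ`
and `C` such that for all `X ≥ 1` at most `C X ^ ε` points `x`, of whatever height, with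
`∑_{p ∉ S} ∑_ℓ λ⁽¹⁾_p(α_ℓ, x) ≤ log X`, whose intersection multiplicities with three of the `α_ℓ`
at the primes outside `S` take at most `n` different positive values, violate
`h(x) ≤ κ ∑_{p ∉ S} ∑_ℓ λ⁽¹⁾_p(α_ℓ, x)`. -/
theorem result (q : ℕ) (α : Fin q → ℤ × ℤ) (_hcop : ∀ i, IsCoprime (α i).1 (α i).2)
    (hα : ∀ i j, i ≠ j → (α i).1 * (α j).2 ≠ (α j).1 * (α i).2) (S : Finset ℕ) (n : ℕ) (ε : ℝ)
    (hε : 0 < ε) : ∃ κ C : ℝ, 0 < κ ∧ 0 < C ∧ ∀ X : ℝ, 1 ≤ X →
      (Exceptional α S n κ X).Finite ∧ ((Exceptional α S n κ X).ncard : ℝ) ≤ C * X ^ ε := by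
  classical
  choose κ C hC h using fun f : {f : Fin 3 → Fin q // Function.Injective f} =>
    tri α hα S n f.1 f.2 hε
  refine ⟨((∑ f, κ f + 1 : ℕ) : ℝ), ∑ f, C f + 1, by positivity,
    add_pos_of_nonneg_of_pos (sum_nonneg fun f _ => (hC f).le) one_pos, fun X hX => ?_⟩
  have hX0 : (0 : ℝ) < X := by linarith
  set Y : ℕ := ⌊X⌋₊ with hY
  have hY1 : 1 ≤ Y := Nat.le_floor (by exact_mod_cast hX)
  have hYX : (Y : ℝ) ≤ X := Nat.floor_le hX0.le
  set T : Finset (ℤ × ℤ) := insert (1, 0) ((univ : Finset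
    {f : Fin 3 → Fin q // Function.Injective f}).biUnion fun f => (h f Y hY1).1.toFinset) with hT
  have hsub : Exceptional α S n ((∑ f, κ f + 1 : ℕ) : ℝ) X ⊆ (T : Set (ℤ × ℤ)) := by
    rintro x ⟨⟨hcop, hpos⟩, hne, ⟨f, hf, hexp⟩, hN, hlt⟩
    rw [mem_coe, hT, mem_insert]
    rcases hpos with hpos | ⟨h0, hpos⟩
    · right
      rw [mem_biUnion]
      refine ⟨⟨f, hf⟩, mem_univ _, ?_⟩
      rw [Set.Finite.mem_toFinset]
      have hr1 : 1 ≤ rad α S x := rad_pos α S x
      have hr0 : (0 : ℝ) < rad α S x := by exact_mod_cast hr1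
      rw [N1_eq] at hN hlt
      refine ⟨hcop, hpos, hne, hexp, ?_, ?_⟩
      · exact Nat.le_floor ((Real.log_le_log_iff hr0 hX0).1 hN)
      · have hm0 : 0 < max x.1.natAbs x.2.natAbs :=
          lt_max_of_lt_right (Int.natAbs_pos.2 hpos.ne')
        have hm0' : (0 : ℝ) < ((max x.1.natAbs x.2.natAbs : ℕ) : ℝ) := by exact_mod_cast hm0
        rw [hgt, ← Real.log_pow, Real.log_lt_log_iff (by positivity) hm0'] at hlt
        have hlt' : rad α S x ^ (∑ f, κ f + 1) < max x.1.natAbs x.2.natAbs := by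
          exact_mod_cast hlt
        refine lt_of_le_of_lt (Nat.pow_le_pow_right hr1 ?_) hlt'
        exact (single_le_sum (f := κ) (fun _ _ => Nat.zero_le _) (mem_univ _)).trans
          (Nat.le_succ _)
    · left
      have h1 : x.1 = 1 := by
        rw [h0, isCoprime_zero_right] at hcop
        rcases Int.isUnit_iff.1 hcop with h1 | h1
        · exact h1
        · omega
      exact Prod.ext h1 h0
  refine ⟨T.finite_toSet.subset hsub, ?_⟩
  have h1 : ((Exceptional α S n ((∑ f, κ f + 1 : ℕ) : ℝ) X).ncard : ℝ) ≤ (T.card : ℝ) := by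
    have := Set.ncard_le_ncard hsub T.finite_toSet
    rw [Set.ncard_coe_finset] at this
    exact_mod_cast this
  refine h1.trans ?_
  have h2 : (T.card : ℝ) ≤ 1 + ∑ f, ((h f Y hY1).1.toFinset.card : ℝ) := by
    have h3 : T.card ≤ (∑ f, (h f Y hY1).1.toFinset.card) + 1 :=
      (card_insert_le _ _).trans (Nat.add_le_add_right card_biUnion_le 1)
    have h4 : (T.card : ℝ) ≤ ((∑ f, (h f Y hY1).1.toFinset.card) + 1 : ℕ) := by exact_mod_cast h3
    push_cast at h4
    linarith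
  refine h2.trans ?_
  have h3 : ∀ f ∈ (univ : Finset {f : Fin 3 → Fin q // Function.Injective f}),
      ((h f Y hY1).1.toFinset.card : ℝ) ≤ C f * X ^ ε := by
    intro f _
    have h4 := (h f Y hY1).2
    rw [Set.ncard_eq_toFinset_card _ (h f Y hY1).1] at h4
    refine h4.trans (mul_le_mul_of_nonneg_left ?_ (hC f).le)
    exact Real.rpow_le_rpow (by positivity) hYX hε.le
  have h4 := sum_le_sum h3
  rw [← sum_mul] at h4
  have h5 : (1 : ℝ) ≤ X ^ ε := Real.one_le_rpow hX hε.le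
  calc _ ≤ X ^ ε + (∑ f, C f) * X ^ ε := add_le_add h5 h4
    _ = _ := by ring

end Pool.Agent.Results.MP_4d5ce1_nt.FewExponents
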