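import Pool.Agent.X123.MT.Line

/-!
# Vojta's inequality with truncated counting functions and almost every additional target

Let `K` be a number field, `T` a finite set of primes and `α_1, …, α_q` (`q ≥ 3`) distinct points of
the projective line over `K`. We add targets `y = (y_i)` at finitely many places, archimedean or
not; they are arbitrary points of the completions, not algebraic ones. For almost all `y` the
truncated inequality with the additional proximity `λ(y, x)` to the targets holds for all `x ∈ K`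
with `λ(y, x) ≥ (t + ε) h(x)`, `t = 1` for `q = 3` and `t = 8 / 7` for `q ≥ 4`, and all points `x`
which violate the conjectured inequality are at a large distance from `y`.
-/

set_option autoImplicit false

namespace Pool.Agent.Results.MP_4d5ce1_nt.GenericTargets

open NumberField IsDedekindDomain MeasureTheory

/-- the absolute logarithmic height of the point `[x : 1]` -/
noncomputable def height {K : Type} [Field K] [NumberField K] (x : K) : ℝ :=
  (∑ w : InfinitePlace K, (w.mult : ℝ) * Real.log (max (w x) (w 1)) +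
    ∑ᶠ v : HeightOneSpectrum (RingOfIntegers K),
      Real.log (max (FinitePlace.mk v x) (FinitePlace.mk v 1))) /
    (Module.finrank ℚ K : ℝ)

/-- the truncated counting function of the point `[x : 1]` with respect to the points
`[(α l).1 : (α l).2]`: the sum over the primes outside `T` and over `l` of the truncated local
heights -/
noncomputable def counting {K : Type} [Field K] [NumberField K]
    (T : Set (HeightOneSpectrum (RingOfIntegers K))) {q : ℕ} (α : Fin q → K × K) (x : K) : ℝ :=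
  ∑ᶠ (v : HeightOneSpectrum (RingOfIntegers K)) (_ : v ∉ T),
    ∑ l : Fin q,
      min
        (Real.log
            (max (FinitePlace.mk v x) (FinitePlace.mk v 1) *
              max (FinitePlace.mk v (α l).1) (FinitePlace.mk v (α l).2) /
              FinitePlace.mk v (x * (α l).2 - 1 * (α l).1)) /
          (Module.finrank ℚ K : ℝ))
        (Real.log (Ideal.absNorm v.asIdeal : ℝ) / (Module.finrank ℚ K : ℝ))

/-- `1` for `q = 3` and `8 / 7` for `q ≥ 4` -/
noncomputable def thr (q : ℕ) : ℝ := if q = 3 then 1 else 8 / 7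

/-- `80/133, 18/23, 1, 1` for `q = 3, 4, 5, 6` and `8/7` for `q ≥ 7` -/
noncomputable def expo (q : ℕ) : ℝ :=
  if q = 3 then 80 / 133 else if q = 4 then 18 / 23 else if q ≤ 6 then 1 else 8 / 7

/-- The assertion about the proximity `Λ x` of the points `x` to the targets. For `Λ x ≥ (thr q + ε)
h(x) + C` the first part is `(q - 2 - ε) h(x) + Λ x ≤ ∑_{v ∉ T} ∑_l λ⁽¹⁾_v(α_l, x) + C`. -/
def Holds {K : Type} [Field K] [NumberField K] (T : Set (HeightOneSpectrum (RingOfIntegers K)))
    {q : ℕ} (α : Fin q → K × K) (Λ : K → ℝ) : Prop :=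
  ∀ ε : ℝ, 0 < ε →
    (∃ C : ℝ, ∀ x : K, (∀ l, x * (α l).2 - 1 * (α l).1 ≠ 0) →
      Λ x ≤ max (counting T α x - (q - 2) * height x) (thr q * height x) + ε * height x + C) ∧
    ∀ c : ℝ, ∃ C : ℝ, ∀ x : K, (∀ l, x * (α l).2 - 1 * (α l).1 ≠ 0) →
      counting T α x < (q - 2) * height x + c → Λ x ≤ (expo q + ε) * height x + C

/-- closed balls of radius `r ≤ 1` have measure at most `C r ^ n` -/
def Balls {F : Type} [MetricSpace F] [MeasurableSpace F] (μ : Measure F) (n : ℝ) : Prop :=
  ∃ C : ℝ, ∀ (a : F) (r : ℝ), 0 < r → r ≤ 1 →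
    μ (Metric.closedBall a r) ≤ ENNReal.ofReal (C * r ^ n)

open Classical in
/-- the proximity of `x` to the point `y` of `K ⊗ ℝ = ℝ ^ (r₁) × ℂ ^ (r₂)` at all archimedean places:
`1 / [K : ℚ]` times the sum of the `[K_v : ℝ] log⁺ (1 / |y_v - x|_v)` -/
noncomputable def lamInf {K : Type} [Field K] [NumberField K] (y : mixedEmbedding.mixedSpace K)
    (x : K) : ℝ :=
  (∑ w, max 0 (Real.log (1 / |y.1 w - (mixedEmbedding K x).1 w|)) +
    ∑ w, 2 * max 0 (Real.log (1 / ‖y.2 w - (mixedEmbedding K x).2 w‖))) /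
      (Module.finrank ℚ K : ℝ)

theorem sel_low {q : ℕ} (hq : 3 ≤ q) {κ : ℝ} (h : κ ≤ 2 - thr q) :
    Pool.Agent.H691R3.Sel.{0} q κ (2 - κ) := by
  unfold thr at h
  split_ifs at h with h3
  · subst h3
    exact Pool.Agent.W221.Exc.sel_below_one (by norm_num)
      (Pool.Agent.W221.Exc.sel_three_one 1 le_rfl) (by linarith)
  · have h1 := Pool.Agent.H691R3.sel_all.{0} (by omega : 2 ≤ q) κ
    rwa [max_eq_left (by linarith)] at h1

theorem sel_two {q : ℕ} (hq : 3 ≤ q) : Pool.Agent.H691R3.Sel.{0} q 2 (expo q) := by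
  have hqR : (3 : ℝ) ≤ q := by exact_mod_cast hq
  refine Pool.Agent.H691R3.sel_mono (Pool.Agent.H691R3.sel_expo (by omega : 2 ≤ q) 2
    (by norm_num) (by linarith)) ?_
  unfold Pool.Agent.H691R3.expoR expo
  rw [if_neg (lt_irrefl (2 : ℝ))]
  split_ifs with h1 h2 h3 h4 h5
  · exact min_le_right _ _
  · exact min_le_right _ _
  · exact min_le_right _ _
  · exfalso; omega
  · exfalso; omega
  · refine (min_le_left _ _).trans ((min_le_right _ _).trans ?_)
    norm_num

theorem thr_le {q : ℕ} : thr q ≤ 2 := by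
  unfold thr
  split_ifs <;> norm_num

theorem expo_nonneg {q : ℕ} : 0 ≤ expo q := by
  unfold expo
  split_ifs <;> norm_num

open Pool.Agent.X123.MT in
theorem holds_of_generic {K : Type} [Field K] [NumberField K]
    {T : Set (HeightOneSpectrum (RingOfIntegers K))} (hT : T.Finite) {q : ℕ} (hq : 3 ≤ q)
    {α : Fin q → K × K} (hα0 : ∀ i, α i ≠ 0)
    (hα : ∀ i j, i ≠ j → (α i).1 * (α j).2 - (α i).2 * (α j).1 ≠ 0)
    {Y : Type*} [MeasurableSpace Y] {μ : Measure Y} {L : K → Y → ℝ} (hL : Generic μ L) :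
    ∀ᵐ y ∂μ, Holds T α (fun x => L x y / (Module.finrank ℚ K : ℝ)) := by
  have hd : (0 : ℝ) < (Module.finrank ℚ K : ℝ) := by exact_mod_cast Module.finrank_pos
  obtain ⟨d, hdd⟩ : ∃ d : ℝ, d = (Module.finrank ℚ K : ℝ) := ⟨_, rfl⟩
  rw [← hdd] at hd ⊢
  have hκ1 : 0 ≤ 2 - thr q := by linarith [thr_le (q := q)]
  obtain ⟨c1, hc1⟩ := counting_lt T (by omega : 2 ≤ q) α hα0
  have H1 : ∀ᵐ y ∂μ, ∀ J j : ℕ, j ≤ J → ∀ ε : ℝ, 0 < ε → ∃ C : ℝ, ∀ x : K,
      (∀ l, x * (α l).2 - 1 * (α l).1 ≠ 0) →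
      counting T α x < ((q : ℝ) - (2 - thr q) * j / J) * height x + c1 →
      L x y ≤ (d * (2 - (2 - thr q) * j / J) + ε) * height x + C := by
    rw [ae_all_iff]
    intro J
    rw [ae_all_iff]
    intro j
    by_cases hj : j ≤ J
    · obtain ⟨κ, hκ⟩ : ∃ κ : ℝ, κ = (2 - thr q) * j / J := ⟨_, rfl⟩
      have hκ0 : 0 ≤ κ := by rw [hκ]; positivity
      have hκ2 : κ ≤ 2 - thr q := by
        rw [hκ]
        rcases Nat.eq_zero_or_pos J with h | h
        · subst h
          simpa using hκ1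
        · have hJ : (0 : ℝ) < J := by exact_mod_cast h
          rw [div_le_iff₀ hJ]
          exact mul_le_mul_of_nonneg_left (by exact_mod_cast hj) hκ1
      have hκ3 : κ ≤ 2 := by
        refine hκ2.trans ?_
        have : 0 ≤ thr q := by unfold thr; split_ifs <;> norm_num
        linarith
      have h1 := hL _ _ _ (fun x _ => height_nonneg x) (by positivity)
        (cnt_exc T hT (by omega : 2 ≤ q) α hα0 hα c1 hκ0 (by linarith : 0 ≤ 2 - κ)
          (sel_low hq hκ2))
      rw [← hdd] at h1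
      filter_upwards [h1] with y hy _ ε hε
      obtain ⟨C, hC⟩ := hy ε hε
      refine ⟨C, fun x hx1 hx2 => ?_⟩
      rw [← hκ] at hx2 ⊢
      exact hC x ⟨hx1, hx2⟩
    · exact Filter.Eventually.of_forall fun y h => absurd h hj
  have H2 : ∀ᵐ y ∂μ, ∀ n : ℕ, ∀ ε : ℝ, 0 < ε → ∃ C : ℝ, ∀ x : K,
      (∀ l, x * (α l).2 - 1 * (α l).1 ≠ 0) →
      counting T α x < ((q : ℝ) - 2) * height x + n →
      L x y ≤ (d * expo q + ε) * height x + C := by
    rw [ae_all_iff]
    intro n
    have h1 := hL _ _ _ (fun x _ => height_nonneg x) (mul_nonneg (Nat.cast_nonneg _) expo_nonneg)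
      (cnt_exc T hT (by omega : 2 ≤ q) α hα0 hα n (by norm_num) expo_nonneg (sel_two hq))
    rw [← hdd] at h1
    filter_upwards [h1] with y hy ε hε
    obtain ⟨C, hC⟩ := hy ε hε
    exact ⟨C, fun x hx1 hx2 => hC x ⟨hx1, hx2⟩⟩
  filter_upwards [H1, H2] with y h1 h2 ε hε
  refine ⟨?_, fun c => ?_⟩
  · have h3 := line_of (fun x : K => ∀ l, x * (α l).2 - 1 * (α l).1 ≠ 0) (fun x => counting T α x)
      (fun x : K => height x) (fun x => L x y / d) (q := q) (κ1 := 2 - thr q) (c1 := c1)
      (fun x => height_nonneg x) hκ1 (fun x hx => hc1 x hx) ?_ ε hε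
    · obtain ⟨C, hC⟩ := h3
      refine ⟨C, fun x hx => ?_⟩
      have h4 := hC x hx
      simp only [sub_sub_cancel] at h4
      exact h4
    · intro J j hj ε' hε'
      obtain ⟨C, hC⟩ := h1 J j hj (d * ε') (by positivity)
      refine ⟨C / d, fun x hx1 hx2 => ?_⟩
      have h4 := hC x hx1 hx2
      rw [div_le_iff₀ hd]
      refine h4.trans (le_of_eq ?_)
      field_simp
  · obtain ⟨n, hn⟩ := exists_nat_ge c
    obtain ⟨C, hC⟩ := h2 n (d * ε) (by positivity)
    refine ⟨C / d, fun x hx1 hx2 => ?_⟩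
    have hx3 : Pool.Agent.W221.Exc.counting T α x <
        ((q : ℝ) - 2) * Pool.Agent.W221.Exc.height x + n := lt_of_lt_of_le hx2 (by
      have e : Pool.Agent.W221.Exc.height x = height x := rfl
      rw [e]
      linarith)
    have h4 := hC x hx1 hx3
    show L x y / d ≤ _
    rw [div_le_iff₀ hd]
    refine h4.trans (le_of_eq ?_)
    field_simp

open Classical in
/-- Let `K` be a number field, `T` a finite set of primes and `α_1, …, α_q` (`q ≥ 3`) distinct points
of the projective line over `K`.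

(1) Let `F_i` (`i` in a finite set) be metric spaces with `σ`-finite Borel measures `μ_i` whose balls
of radius `r ≤ 1` have measure at most `C r ^ (n_i)`, and `σ_i : K → F_i` arbitrary maps; for instance
completions `F_i = K_v`, `n_i = [K_v : ℚ_v]`, with the metric which extends the usual one of `ℚ_v`.
Put `λ(y, x) = ∑ n_i log⁺ (1 / |y_i - σ_i(x)|) / [K : ℚ]`. For almost all `y` in the product of the
`F_i` and all `ε > 0` there is `C` such that for all `x ∈ K`, `x ≠ α_l`,
`λ(y, x) ≤ max (∑_{v ∉ T} ∑_l λ⁽¹⁾_v(α_l, x) - (q - 2) h(x)) (thr q h(x)) + ε h(x) + C`, and all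
`x` with `∑_{v ∉ T} ∑_l λ⁽¹⁾_v(α_l, x) < (q - 2) h(x) + c` satisfy `λ(y, x) ≤ (expo q + ε) h(x) + C`.

(2) The same holds for almost all `y` in `K ⊗ ℝ`, with all archimedean places. -/
theorem result (K : Type) [Field K] [NumberField K] (T : Set (HeightOneSpectrum (RingOfIntegers K)))
    (hT : T.Finite) (q : ℕ) (hq : 3 ≤ q) (α : Fin q → K × K) (hα0 : ∀ i, α i ≠ 0)
    (hα : ∀ i j, i ≠ j → (α i).1 * (α j).2 - (α i).2 * (α j).1 ≠ 0) :
    (∀ (ι : Type) [Fintype ι] (F : ι → Type) [∀ i, MetricSpace (F i)]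
      [∀ i, MeasurableSpace (F i)] [∀ i, BorelSpace (F i)] (μ : ∀ i, Measure (F i))
      [∀ i, SigmaFinite (μ i)] (n : ι → ℝ) (σ : ∀ i, K → F i), (∀ i, 0 < n i) →
      (∀ i, Balls (μ i) (n i)) →
      ∀ᵐ y ∂(Measure.pi μ), (∀ i x, y i ≠ σ i x) ∧
        Holds T α (fun x => (∑ i, n i * max 0 (Real.log (1 / dist (y i) (σ i x)))) /
          (Module.finrank ℚ K : ℝ))) ∧
    ∀ᵐ y : mixedEmbedding.mixedSpace K, Holds T α (fun x => lamInf y x) := by
  have := Pool.Agent.X123.MT.countable_K K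
  refine ⟨fun ι _ F _ _ _ μ _ n σ hn hμ => ?_, ?_⟩
  · have h1 := Pool.Agent.X123.MT.ae_ne μ hn hμ σ
    have h2 := holds_of_generic hT hq hα0 hα (Pool.Agent.X123.MT.generic_pi μ hn hμ σ)
    filter_upwards [h1, h2] with y h1 h2
    exact ⟨h1, h2⟩
  · exact holds_of_generic hT hq hα0 hα (Pool.Agent.X123.MT.generic_mixed K)

end Pool.Agent.Results.MP_4d5ce1_nt.GenericTargets
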