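import Mathlib
import Pool.Agent.Results.MP_4d5ce1_nt.ExceptionalSetExponents
import Pool.Agent.Results.MP_4d5ce1_nt.AllFiniteSubsetsAtOnce
import Pool.Agent.Y854.GM.Win
import Pool.Agent.W221.ExcLow1

/-!
# The abc conjecture for finite subsets of the line without exceptions in windows

`K` is a number field of degree `d`. Let `v ≥ 1` be a sequence with exponent of convergence at most `τ`
(for `v_n = n ^ a` this is `1 / a`, for `v_n = b ^ n` it is `0`) and `θ < 1`. The set of exceptional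
numbers `a` below depends only on `K`, `v`, `θ` and the exponent, not on the finite subset
`α_1, …, α_q` of the line over `K`, on the finite set `T` of primes or on the constant `c`.

Windows of heights: let `0 ≤ t ≤ 3`. For all `a > 0` outside a set of Hausdorff dimension at most
`(e(t) + τ) / (1 - θ)`, for all `q ≥ 3`, all distinct `α_1, …, α_q`, all `T`, all real `c` and all but
finitely many `n`, ALL points `x ≠ α_l` with `|H(x) - a v_n| ≤ v_n ^ θ`, `H = exp (d h)` the relative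
height, satisfy `(1 - t / 3) q h(x) + c ≤ N(x)`, `N(x) = ∑_{v ∉ T} ∑_l λ⁽¹⁾_v(α_l, x)`. The conjecture
has the coefficient `q - 2`, that is `t = 6 / q`; `e(2) = 80 / 133` and `e(3 / 2) = 7 / 8`.
For all `a > 0` outside a set of dimension at most `τ / (1 - θ)` some `t < 3` is admissible.

Windows of counting functions: for every `ε > 0` there is `ν > 0` such that for all `a > 0` outside a
set of dimension at most `(2 / 3 - ν + τ) / (1 - θ)`, for all `q`, `α_l`, `T`, `c` as above and all but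
finitely many `n`, ALL points `x`, of whatever height, with `|R(x) - a v_n| ≤ v_n ^ θ`,
`R = exp (3 d N / q)`, satisfy `(1 - ε) q h(x) + c ≤ N(x)`. (The number of the points with `R(x) ≤ X` is
`X ^ (2 / 3 + o(1))`, so windows with `1 / 3 < θ < 1 / 3 + ν` contain many points on average.)
-/

set_option autoImplicit false

namespace Pool.Agent.Results.MP_4d5ce1_nt.NoExceptionsInWindows

open NumberField IsDedekindDomain MeasureTheory

/-- the exponent of convergence of the sequence `v` is at most `τ` -/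
def ExpLe (v : ℕ → ℝ) (τ : ℝ) : Prop := ∀ t : ℝ, τ < t → Summable (fun n : ℕ => (v n) ^ (-t))

/-- the absolute logarithmic height of the point `[x : 1]` (the height of Mathlib is relative) -/
noncomputable def height {K : Type} [Field K] [NumberField K] (x : K) : ℝ :=
  Height.logHeight₁ x / (Module.finrank ℚ K : ℝ)

/-- the truncated counting function `N(x)` of the point `[x : 1]` with respect to the points
`[(α l).1 : (α l).2]`: the sum over the primes outside `T` and over `l` of the truncated local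
heights -/
noncomputable def counting {K : Type} [Field K] [NumberField K]
    (T : Set (HeightOneSpectrum (𝓞 K))) {q : ℕ} (α : Fin q → K × K) (x : K) : ℝ :=
  ∑ᶠ (v : HeightOneSpectrum (𝓞 K)) (_ : v ∉ T),
    ∑ l : Fin q,
      min
        (Real.log
            (max (FinitePlace.mk v x) (FinitePlace.mk v 1) *
              max (FinitePlace.mk v (α l).1) (FinitePlace.mk v (α l).2) /
              FinitePlace.mk v (x * (α l).2 - 1 * (α l).1)) /
          (Module.finrank ℚ K : ℝ))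
        (Real.log (Ideal.absNorm v.asIdeal : ℝ) / (Module.finrank ℚ K : ℝ))

/-- distinct points of the line over `K` -/
def Distinct {K : Type} [Field K] {q : ℕ} (α : Fin q → K × K) : Prop :=
  ∀ i j, i ≠ j → (α i).1 * (α j).2 - (α i).2 * (α j).1 ≠ 0

/-- the exponent: a continuous function on `[0, 3]`, linear on each of the
intervals between `0, 1, 4/3, 17/12, 3/2, 17/10, 7/4, 9/5, 13/7, 19/10, 8512/4185, 94/45, 47/22,
24/11, 3`, with the values `2, 1, 1, 11/12, 7/8, 3/4, 3/4, 7/10, 47/70, 47/70, 26/45, 26/45, 6/11,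
6/11, 0` at these points -/
noncomputable def e (t : ℝ) : ℝ :=
  if t ≤ 1 then 2 - t
  else if t ≤ 4 / 3 then 1
  else if t ≤ 17 / 12 then 7 / 3 - t
  else if t ≤ 3 / 2 then 13 / 8 - t / 2
  else if t ≤ 17 / 10 then 29 / 16 - 5 * t / 8
  else if t ≤ 7 / 4 then 3 / 4
  else if t ≤ 9 / 5 then 5 / 2 - t
  else if t ≤ 13 / 7 then 8 / 5 - t / 2
  else if t ≤ 19 / 10 then 47 / 70
  else if t ≤ 8512 / 4185 then 2 - 93 * t / 133
  else if t ≤ 94 / 45 then 26 / 45
  else if t ≤ 47 / 22 then 2 - 32 * t / 47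
  else if t ≤ 24 / 11 then 6 / 11
  else 2 - 2 * t / 3

theorem ite_nn {p : Prop} [Decidable p] {a b : ℝ} (h1 : p → 0 ≤ a) (h2 : ¬ p → 0 ≤ b) :
    0 ≤ if p then a else b := by
  by_cases h : p
  · rw [if_pos h]
    exact h1 h
  · rw [if_neg h]
    exact h2 h

theorem e_nonneg {t : ℝ} (h : t ≤ 3) : 0 ≤ e t := by
  unfold e
  repeat refine ite_nn (fun _ => by linarith) fun _ => ?_
  linarith

theorem e_large {t : ℝ} (h : 24 / 11 < t) : e t = 2 - 2 * t / 3 := by
  unfold e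
  repeat rw [if_neg (by linarith)]

section basics

variable {K : Type} [Field K] [NumberField K]

theorem countableK : Countable K := by
  have b := Module.finBasis ℚ K
  exact b.equivFun.toEquiv.injective.countable

theorem countableT : Countable (HeightOneSpectrum (𝓞 K)) := by
  have : Countable K := countableK
  have : Countable (𝓞 K) := RingOfIntegers.coe_injective.countable
  have : Countable (Ideal (𝓞 K)) := by
    have hs : Function.Surjective (fun s : Finset (𝓞 K) => Ideal.span (s : Set (𝓞 K))) := by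
      intro I
      obtain ⟨s, hs⟩ := (isNoetherian_def.1 (inferInstance : IsNoetherian (𝓞 K) (𝓞 K))) I
      exact ⟨s, hs⟩
    exact hs.countable
  have hi : Function.Injective (fun v : HeightOneSpectrum (𝓞 K) => v.asIdeal) := by
    intro v w h
    exact HeightOneSpectrum.ext h
  exact hi.countable

theorem height_eq (x : K) : ExceptionalSetExponents.height x = height x := by
  unfold ExceptionalSetExponents.height height
  rw [Height.logHeight₁_eq_log_mulHeight₁, ← Pool.Agent.W221.Exc.hr_aff_eq]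
  rfl

end basics

/-- indices: finite sets of primes, finite families of points and constants -/
abbrev Idx (K : Type) [Field K] [NumberField K] : Type :=
  Finset (HeightOneSpectrum (𝓞 K)) × (Σ q : ℕ, Fin q → K × K) × ℕ

theorem countableIdx (K : Type) [Field K] [NumberField K] : Countable (Idx K) := by
  have : Countable K := countableK
  have : Countable (HeightOneSpectrum (𝓞 K)) := countableT
  infer_instance

/-- windows of heights, one index -/
theorem heights (K : Type) [Field K] [NumberField K] (t : ℝ) (ht0 : 0 ≤ t) (ht3 : t ≤ 3)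
    {v : ℕ → ℝ} {τ θ : ℝ} (hv : ∀ n, 1 ≤ v n) (hτ : 0 ≤ τ) (hE : ExpLe v τ) (hθ : θ < 1)
    (T : Finset (HeightOneSpectrum (𝓞 K))) (q : ℕ) (hq : 3 ≤ q) (α : Fin q → K × K)
    (hα : Distinct α) (c : ℝ) :
    ∃ E : Set ℝ, dimH E ≤ ENNReal.ofReal ((e t + τ) / (1 - θ)) ∧ ∀ a : ℝ, 0 < a → a ∉ E →
      ∃ n₀ : ℕ, ∀ n : ℕ, n₀ ≤ n → ∀ x : K, (∀ l, x * (α l).2 - 1 * (α l).1 ≠ 0) →
        |Real.exp ((Module.finrank ℚ K : ℝ) * height x) - a * v n| ≤ (v n) ^ θ →
          (1 - t / 3) * q * height x + c ≤ counting (T : Set (HeightOneSpectrum (𝓞 K))) α x := by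
  have hd : (0 : ℝ) < Module.finrank ℚ K := by exact_mod_cast (Module.finrank_pos (R := ℚ) (M := K))
  have hα0 : ∀ i, α i ≠ 0 := by
    intro i h
    obtain ⟨j, hj⟩ : ∃ j : Fin q, i ≠ j := by
      by_cases h : i = ⟨0, by omega⟩
      · refine ⟨⟨1, by omega⟩, ?_⟩
        rw [h]
        intro h'
        have := congrArg Fin.val h'
        simp at this
      · exact ⟨_, h⟩
    apply hα i j hj
    rw [h]
    simp
  have hq0 : (0 : ℝ) < q := by exact_mod_cast (by omega : 0 < q)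
  have hκ : 3 * (t * q / 3) / q = t := by field_simp
  obtain ⟨E, h1, h2⟩ := Pool.Agent.Y854.GM.windows
    {x : K | (∀ l, x * (α l).2 - 1 * (α l).1 ≠ 0) ∧
      counting (T : Set (HeightOneSpectrum (𝓞 K))) α x < (1 - t / 3) * q * height x + c}
    (fun x : K => Real.exp ((Module.finrank ℚ K : ℝ) * height x)) (θ := θ)
    hv hτ hE (e_nonneg ht3) hθ (fun ε hε => by
      obtain ⟨C, hC⟩ := (ExceptionalSetExponents.result K (T : Set (HeightOneSpectrum (𝓞 K)))
        T.finite_toSet q (by omega) α hα0 hα (t * q / 3) c (by positivity)).2 hq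
        (by nlinarith) ((Module.finrank ℚ K : ℝ) * ε) (by positivity)
      refine ⟨C, fun X hX => ?_⟩
      have hX0 : 0 < X := by linarith
      obtain ⟨h3, h4⟩ := hC (X ^ (1 / (Module.finrank ℚ K : ℝ)))
        (Real.one_le_rpow hX (by positivity))
      have hset : {x | x ∈ {x : K | (∀ l, x * (α l).2 - 1 * (α l).1 ≠ 0) ∧
          counting (T : Set (HeightOneSpectrum (𝓞 K))) α x < (1 - t / 3) * q * height x + c} ∧
            Real.exp ((Module.finrank ℚ K : ℝ) * height x) ≤ X} =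
          ExceptionalSetExponents.exceptional (T : Set (HeightOneSpectrum (𝓞 K))) α
            (t * q / 3) c (X ^ (1 / (Module.finrank ℚ K : ℝ))) := by
        ext x
        have hiff : Real.exp ((Module.finrank ℚ K : ℝ) * height x) ≤ X ↔
            Real.exp (ExceptionalSetExponents.height x) ≤ X ^ (1 / (Module.finrank ℚ K : ℝ)) := by
          rw [height_eq, ← Real.le_log_iff_exp_le hX0,
            ← Real.le_log_iff_exp_le (Real.rpow_pos_of_pos hX0 _), Real.log_rpow hX0,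
            one_div, le_inv_mul_iff₀ hd]
        have hval : ((q : ℝ) - t * q / 3) * ExceptionalSetExponents.height x + c =
            (1 - t / 3) * q * height x + c := by
          rw [height_eq]
          ring
        constructor
        · rintro ⟨⟨b1, b2⟩, b3⟩
          exact ⟨b1, hiff.1 b3, by rw [hval]; exact b2⟩
        · rintro ⟨b1, b2, b3⟩
          rw [hval] at b3
          exact ⟨⟨b1, b3⟩, hiff.2 b2⟩
      rw [hset]
      refine ⟨h3, h4.trans (le_of_eq ?_)⟩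
      rw [← Real.rpow_mul hX0.le, hκ]
      congr 2
      have he : ExceptionalSetExponents.expoThree t = e t := rfl
      rw [he]
      field_simp)
  refine ⟨E, h1, fun a ha haE => ?_⟩
  obtain ⟨n₀, hn⟩ := h2 a ha haE
  refine ⟨n₀, fun n hn1 x hx hw => ?_⟩
  by_contra hcon
  push Not at hcon
  exact absurd (hn n hn1 x ⟨hx, hcon⟩) (not_lt.2 hw)

/-- windows of heights, all indices -/
theorem heightsAll (K : Type) [Field K] [NumberField K] (t : ℝ) (ht0 : 0 ≤ t) (ht3 : t ≤ 3)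
    {v : ℕ → ℝ} {τ θ : ℝ} (hv : ∀ n, 1 ≤ v n) (hτ : 0 ≤ τ) (hE : ExpLe v τ) (hθ : θ < 1) :
    ∃ E : Set ℝ, dimH E ≤ ENNReal.ofReal ((e t + τ) / (1 - θ)) ∧ ∀ a : ℝ, 0 < a → a ∉ E →
      ∀ T : Set (HeightOneSpectrum (𝓞 K)), T.Finite → ∀ q : ℕ, 3 ≤ q → ∀ α : Fin q → K × K,
        Distinct α → ∀ c : ℝ, ∃ n₀ : ℕ, ∀ n : ℕ, n₀ ≤ n → ∀ x : K,
          (∀ l, x * (α l).2 - 1 * (α l).1 ≠ 0) →
            |Real.exp ((Module.finrank ℚ K : ℝ) * height x) - a * v n| ≤ (v n) ^ θ →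
              (1 - t / 3) * q * height x + c ≤ counting T α x := by
  classical
  have : Countable (Idx K) := countableIdx K
  have h : ∀ i : Idx K, ∃ E : Set ℝ, dimH E ≤ ENNReal.ofReal ((e t + τ) / (1 - θ)) ∧
      ∀ a : ℝ, 0 < a → a ∉ E → 3 ≤ i.2.1.1 → Distinct i.2.1.2 →
      ∃ n₀ : ℕ, ∀ n : ℕ, n₀ ≤ n → ∀ x : K, (∀ l, x * (i.2.1.2 l).2 - 1 * (i.2.1.2 l).1 ≠ 0) →
        |Real.exp ((Module.finrank ℚ K : ℝ) * height x) - a * v n| ≤ (v n) ^ θ →
          (1 - t / 3) * i.2.1.1 * height x + i.2.2 ≤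
            counting (i.1 : Set (HeightOneSpectrum (𝓞 K))) i.2.1.2 x := by
    intro i
    by_cases hi : 3 ≤ i.2.1.1 ∧ Distinct i.2.1.2
    · obtain ⟨E, h1, h2⟩ := heights K t ht0 ht3 hv hτ hE hθ i.1 i.2.1.1 hi.1 i.2.1.2 hi.2 i.2.2
      exact ⟨E, h1, fun a ha haE _ _ => h2 a ha haE⟩
    · exact ⟨∅, by simp, fun a _ _ h3 h4 => absurd ⟨h3, h4⟩ hi⟩
  choose E h1 h2 using h
  refine ⟨⋃ i, E i, ?_, fun a ha haE T hT q hq α hα c => ?_⟩
  · rw [dimH_iUnion]
    exact iSup_le h1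
  · obtain ⟨k, hk⟩ := exists_nat_ge c
    obtain ⟨n₀, hn⟩ := h2 (hT.toFinset, ⟨q, α⟩, k) a ha
      (fun h => haE (Set.mem_iUnion.2 ⟨_, h⟩)) hq hα
    refine ⟨n₀, fun n hn1 x hx hw => ?_⟩
    have h3 := hn n hn1 x hx hw
    simp only [Set.Finite.coe_toFinset] at h3
    linarith

/-- windows of counting functions, one index -/
theorem radicals (K : Type) [Field K] [NumberField K] (ε : ℝ) (hε : 0 < ε) :
    ∃ ν : ℝ, 0 < ν ∧ ν ≤ 2 / 3 ∧ ∀ (v : ℕ → ℝ) (τ θ : ℝ), (∀ n, 1 ≤ v n) → 0 ≤ τ → ExpLe v τ →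
      θ < 1 → ∀ (T : Finset (HeightOneSpectrum (𝓞 K))) (q : ℕ), 3 ≤ q → ∀ α : Fin q → K × K,
      Distinct α → ∀ c : ℝ,
      ∃ E : Set ℝ, dimH E ≤ ENNReal.ofReal ((2 / 3 - ν + τ) / (1 - θ)) ∧ ∀ a : ℝ, 0 < a → a ∉ E →
        ∃ n₀ : ℕ, ∀ n : ℕ, n₀ ≤ n → ∀ x : K, (∀ l, x * (α l).2 - 1 * (α l).1 ≠ 0) →
          |Real.exp (3 * (Module.finrank ℚ K : ℝ) / q *
            counting (T : Set (HeightOneSpectrum (𝓞 K))) α x) - a * v n| ≤ (v n) ^ θ →
            (1 - ε) * q * height x + c ≤ counting (T : Set (HeightOneSpectrum (𝓞 K))) α x := by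
  classical
  have hd : (0 : ℝ) < Module.finrank ℚ K := by exact_mod_cast (Module.finrank_pos (R := ℚ) (M := K))
  obtain ⟨d, hdd⟩ : ∃ d : ℝ, d = Module.finrank ℚ K := ⟨_, rfl⟩
  obtain ⟨η, ν₀, hη, hν₀, ⟨C, hC⟩, -⟩ := AllFiniteSubsetsAtOnce.result K (ε / 2) (by positivity) 0
  obtain ⟨CB, hCB, hsmall⟩ := Pool.Agent.Y557.NF.few_small K
  rw [← hdd] at hd hC ⊢
  obtain ⟨ν, hν⟩ : ∃ ν, ν = min (ν₀ / d) (2 / 3) := ⟨_, rfl⟩
  have hν1 : ν ≤ ν₀ / d := by rw [hν]; exact min_le_left _ _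
  have hν2 : ν ≤ 2 / 3 := by rw [hν]; exact min_le_right _ _
  refine ⟨ν, by rw [hν]; exact lt_min (by positivity) (by norm_num), hν2, ?_⟩
  intro v τ θ hv hτ hE hθ T q hq α hα c
  have hq0 : (0 : ℝ) < q := by exact_mod_cast (by omega : 0 < q)
  obtain ⟨α', hα'⟩ : ∃ α' : Fin q → Fin 2 → K, α' = fun l => ![(α l).1, (α l).2] := ⟨_, rfl⟩
  obtain ⟨M, hM⟩ : ∃ M, M = ∑ l, |AllFiniteSubsetsAtOnce.height (α' l)| +
    ∑ v ∈ T, Real.log (Ideal.absNorm v.asIdeal : ℝ) := ⟨_, rfl⟩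
  have hT0 : ∀ v : HeightOneSpectrum (𝓞 K), 0 ≤ Real.log (Ideal.absNorm v.asIdeal : ℝ) :=
    fun v => Real.log_natCast_nonneg _
  have hM1 : ∀ l, AllFiniteSubsetsAtOnce.height (α' l) ≤ M := by
    intro l
    have h1 := Finset.single_le_sum (f := fun l => |AllFiniteSubsetsAtOnce.height (α' l)|)
      (fun _ _ => abs_nonneg _) (Finset.mem_univ l)
    have h2 : 0 ≤ ∑ v ∈ T, Real.log (Ideal.absNorm v.asIdeal : ℝ) :=
      Finset.sum_nonneg fun v _ => hT0 v
    have h3 := le_abs_self (AllFiniteSubsetsAtOnce.height (α' l))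
    linarith
  have hM2 : ∑ v ∈ T, Real.log (Ideal.absNorm v.asIdeal : ℝ) ≤ M := by
    have h2 : 0 ≤ ∑ l, |AllFiniteSubsetsAtOnce.height (α' l)| :=
      Finset.sum_nonneg fun v _ => abs_nonneg _
    linarith
  have hM0 : 0 ≤ M := (Finset.sum_nonneg fun v _ => hT0 v).trans hM2
  obtain ⟨Y₀, hY₀⟩ : ∃ Y₀, Y₀ = Real.exp (d * M / η) := ⟨_, rfl⟩
  have hY₀1 : 1 ≤ Y₀ := by rw [hY₀]; exact Real.one_le_exp (by positivity)
  obtain ⟨B, hB⟩ : ∃ B, B = d * (2 * |c| / (ε * q)) := ⟨_, rfl⟩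
  have hB0 : 0 ≤ B := by rw [hB]; positivity
  have hfinB := (hsmall B hB0).1
  have hne : ∀ x : K, (![x, 1] : Fin 2 → K) ≠ 0 := by
    intro x h
    have := congrFun h 1
    simp at this
  have hinj : Function.Injective (fun x : K => Projectivization.mk K ![x, 1] (hne x)) := by
    intro x y hxy
    simp only at hxy
    rw [Projectivization.mk_eq_mk_iff'] at hxy
    obtain ⟨a, ha⟩ := hxy
    have h0 := congrFun ha 0
    have h1 := congrFun ha 1
    simp only [Pi.smul_apply, Matrix.cons_val_zero, Matrix.cons_val_one, smul_eq_mul] at h0 h1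
    rw [mul_one] at h1
    rw [h1, one_mul] at h0
    exact h0.symm
  obtain ⟨S, hS⟩ : ∃ S : Set K, S = {x : K | (∀ l, x * (α l).2 - 1 * (α l).1 ≠ 0) ∧
    counting (T : Set (HeightOneSpectrum (𝓞 K))) α x < (1 - ε) * q * height x + c} := ⟨_, rfl⟩
  have hsub : ∀ Z : ℝ, Y₀ ≤ Z → (fun x : K => Projectivization.mk K ![x, 1] (hne x)) ''
      {x | x ∈ S ∧ Real.exp (3 * d / q *
        counting (T : Set (HeightOneSpectrum (𝓞 K))) α x) ≤ Z} ⊆
      AllFiniteSubsetsAtOnce.Exceptions K (ε / 2) 0 η (Z ^ (1 / d)) ∪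
        Pool.Agent.Y557.NF.HB K B := by
    rintro Z hZ _ ⟨x, ⟨hxS, hxZ⟩, rfl⟩
    rw [hS] at hxS
    obtain ⟨h1, h2⟩ := hxS
    have hZ0 : 0 < Z := by linarith
    have hlogZ : d * M / η ≤ Real.log Z := by
      rw [Real.le_log_iff_exp_le hZ0, ← hY₀]
      exact hZ
    have hMZ : M ≤ η * Real.log (Z ^ (1 / d)) := by
      rw [Real.log_rpow hZ0]
      rw [div_le_iff₀ hη] at hlogZ
      have h3 : η * (1 / d * Real.log Z) = Real.log Z * η / d := by ring
      rw [h3, le_div_iff₀ hd]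
      linarith
    have hheq : AllFiniteSubsetsAtOnce.height (![x, 1] : Fin 2 → K) = height x := by
      unfold AllFiniteSubsetsAtOnce.height height
      rw [Height.logHeight₁_eq_logHeight]
    have hceq : AllFiniteSubsetsAtOnce.counting (T : Set (HeightOneSpectrum (𝓞 K))) α'
        (![x, 1] : Fin 2 → K) = counting (T : Set (HeightOneSpectrum (𝓞 K))) α x := by
      rw [hα']
      rfl
    by_cases hc : c ≤ ε / 2 * q * height x
    · refine Or.inl ⟨![x, 1], hne x, rfl, q, α', T, ⟨hq, ?_, fun l => (hM1 l).trans hMZ⟩,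
        hM2.trans hMZ, ?_, ?_, ?_⟩
      · intro i j hij
        rw [hα']
        exact hα i j hij
      · intro l
        rw [hα']
        exact h1 l
      · rw [hceq, Real.log_rpow hZ0]
        rw [← Real.le_log_iff_exp_le hZ0] at hxZ
        have h3 : counting (T : Set (HeightOneSpectrum (𝓞 K))) α x =
            q / (3 * d) * (3 * d / q * counting (T : Set (HeightOneSpectrum (𝓞 K))) α x) := by
          field_simp
        rw [h3]
        calc q / (3 * d) * (3 * d / q * counting (T : Set (HeightOneSpectrum (𝓞 K))) α x) ≤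
              q / (3 * d) * Real.log Z := mul_le_mul_of_nonneg_left hxZ (by positivity)
          _ = q / 3 * (1 / d * Real.log Z) := by ring
      · rw [hceq, hheq]
        nlinarith
    · refine Or.inr ⟨![x, 1], hne x, rfl, ?_⟩
      push Not at hc
      have h3 : Height.logHeight (![x, 1] : Fin 2 → K) = d * height x := by
        rw [← hheq, hdd]
        unfold AllFiniteSubsetsAtOnce.height
        rw [mul_div_cancel₀ _ (by rw [← hdd]; exact hd.ne')]
      rw [h3, hB]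
      refine mul_le_mul_of_nonneg_left ?_ hd.le
      rw [le_div_iff₀ (by positivity)]
      nlinarith [le_abs_self c]
  have hcount : ∀ ε' : ℝ, 0 < ε' → ∃ C' : ℝ, ∀ Y : ℝ, 1 ≤ Y →
      {x | x ∈ S ∧ Real.exp (3 * d / q *
        counting (T : Set (HeightOneSpectrum (𝓞 K))) α x) ≤ Y}.Finite ∧
      ({x | x ∈ S ∧ Real.exp (3 * d / q *
        counting (T : Set (HeightOneSpectrum (𝓞 K))) α x) ≤ Y}.ncard : ℝ) ≤
        C' * Y ^ (2 / 3 - ν + ε') := by
    intro ε' hε'
    refine ⟨|C| * Y₀ ^ (2 / 3 - ν) + ((Pool.Agent.Y557.NF.HB K B).ncard : ℝ), fun Y hY => ?_⟩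
    obtain ⟨Z, hZ⟩ : ∃ Z, Z = Y₀ * Y := ⟨_, rfl⟩
    have hYZ : Y ≤ Z := by rw [hZ]; nlinarith
    have hYZ' : Y₀ ≤ Z := by rw [hZ]; nlinarith
    have hZ1 : 1 ≤ Z := hY₀1.trans hYZ'
    have hZ0 : 0 < Z := by linarith
    obtain ⟨hf1, hf2⟩ := hC (Z ^ (1 / d)) (Real.one_le_rpow hZ1 (by positivity))
    have hfin := hf1.union hfinB
    have hmono : {x | x ∈ S ∧ Real.exp (3 * d / q *
        counting (T : Set (HeightOneSpectrum (𝓞 K))) α x) ≤ Y} ⊆
        {x | x ∈ S ∧ Real.exp (3 * d / q *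
        counting (T : Set (HeightOneSpectrum (𝓞 K))) α x) ≤ Z} :=
      fun x hx => ⟨hx.1, hx.2.trans hYZ⟩
    have hfin1 : {x | x ∈ S ∧ Real.exp (3 * d / q *
        counting (T : Set (HeightOneSpectrum (𝓞 K))) α x) ≤ Z}.Finite :=
      Set.Finite.of_finite_image (hfin.subset (hsub Z hYZ')) hinj.injOn
    refine ⟨hfin1.subset hmono, ?_⟩
    have h1 : {x | x ∈ S ∧ Real.exp (3 * d / q *
        counting (T : Set (HeightOneSpectrum (𝓞 K))) α x) ≤ Y}.ncard ≤
        (AllFiniteSubsetsAtOnce.Exceptions K (ε / 2) 0 η (Z ^ (1 / d))).ncard +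
          (Pool.Agent.Y557.NF.HB K B).ncard := by
      calc _ ≤ {x | x ∈ S ∧ Real.exp (3 * d / q *
            counting (T : Set (HeightOneSpectrum (𝓞 K))) α x) ≤ Z}.ncard :=
            Set.ncard_le_ncard hmono hfin1
        _ = ((fun x : K => Projectivization.mk K ![x, 1] (hne x)) ''
            {x | x ∈ S ∧ Real.exp (3 * d / q *
              counting (T : Set (HeightOneSpectrum (𝓞 K))) α x) ≤ Z}).ncard :=
            (Set.ncard_image_of_injective _ hinj).symm
        _ ≤ _ := Set.ncard_le_ncard (hsub Z hYZ') hfin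
        _ ≤ _ := Set.ncard_union_le _ _
    have h2 : ((AllFiniteSubsetsAtOnce.Exceptions K (ε / 2) 0 η (Z ^ (1 / d))).ncard : ℝ) ≤
        |C| * Y₀ ^ (2 / 3 - ν) * Y ^ (2 / 3 - ν) := by
      refine hf2.trans ?_
      rw [← Real.rpow_mul hZ0.le]
      have h3 : 1 / d * (2 * d / 3 - ν₀) = 2 / 3 - ν₀ / d := by field_simp
      rw [h3]
      calc C * Z ^ (2 / 3 - ν₀ / d) ≤ |C| * Z ^ (2 / 3 - ν₀ / d) :=
            mul_le_mul_of_nonneg_right (le_abs_self C) (by positivity)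
        _ ≤ |C| * Z ^ (2 / 3 - ν) := mul_le_mul_of_nonneg_left
            (Real.rpow_le_rpow_of_exponent_le hZ1 (by linarith)) (abs_nonneg C)
        _ = _ := by
            rw [hZ, Real.mul_rpow (by linarith) (by linarith)]
            ring
    have h4 : Y ^ (2 / 3 - ν) ≤ Y ^ (2 / 3 - ν + ε') :=
      Real.rpow_le_rpow_of_exponent_le hY (by linarith)
    have h5 : 1 ≤ Y ^ (2 / 3 - ν + ε') := Real.one_le_rpow hY (by linarith)
    have h6 : ({x | x ∈ S ∧ Real.exp (3 * d / q *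
        counting (T : Set (HeightOneSpectrum (𝓞 K))) α x) ≤ Y}.ncard : ℝ) ≤
        ((AllFiniteSubsetsAtOnce.Exceptions K (ε / 2) 0 η (Z ^ (1 / d))).ncard : ℝ) +
          ((Pool.Agent.Y557.NF.HB K B).ncard : ℝ) := by exact_mod_cast h1
    calc _ ≤ |C| * Y₀ ^ (2 / 3 - ν) * Y ^ (2 / 3 - ν) +
          ((Pool.Agent.Y557.NF.HB K B).ncard : ℝ) := by linarith
      _ ≤ |C| * Y₀ ^ (2 / 3 - ν) * Y ^ (2 / 3 - ν + ε') +
          ((Pool.Agent.Y557.NF.HB K B).ncard : ℝ) * Y ^ (2 / 3 - ν + ε') := by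
          refine add_le_add (mul_le_mul_of_nonneg_left h4 (by positivity)) ?_
          exact le_mul_of_one_le_right (by positivity) h5
      _ = _ := by ring
  obtain ⟨E, h1, h2⟩ := Pool.Agent.Y854.GM.windows S
    (fun x : K => Real.exp (3 * d / q * counting (T : Set (HeightOneSpectrum (𝓞 K))) α x))
    (θ := θ) hv hτ hE (by linarith : (0 : ℝ) ≤ 2 / 3 - ν) hθ hcount
  refine ⟨E, h1, fun a ha haE => ?_⟩
  obtain ⟨n₀, hn⟩ := h2 a ha haE
  refine ⟨n₀, fun n hn1 x hx hw => ?_⟩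
  by_contra hcon
  push Not at hcon
  refine absurd (hn n hn1 x ?_) (not_lt.2 hw)
  rw [hS]
  exact ⟨hx, hcon⟩

/-- **Theorem.** Let `K` be a number field of degree `d`, and `v ≥ 1` a sequence of exponent of
convergence at most `τ ≥ 0`, `θ < 1`. Let `N(x)` be the truncated counting function and `H = exp (d h)`.

1. For every `0 ≤ t ≤ 3` there is a set `E` of Hausdorff dimension at most `(e(t) + τ) / (1 - θ)` such
that for each `a > 0` outside `E`, all finite sets `T` of primes, all `q ≥ 3`, all distinct points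
`α_1, …, α_q` of the line over `K`, all real `c` and all but finitely many `n`, ALL points
`x ≠ α_l` with `|H(x) - a v_n| ≤ v_n ^ θ` satisfy `(1 - t / 3) q h(x) + c ≤ N(x)`.

2. There is a set `E` of dimension at most `τ / (1 - θ)` such that for each `a > 0` outside `E` there is
`t < 3` with this property.

3. For every `ε > 0` there is `ν > 0`, independent of `v`, `τ`, `θ`, and a set `E` of dimension at
most `(2 / 3 - ν + τ) / (1 - θ)` such that for each `a > 0` outside `E`, all `T`, `q ≥ 3`, `α_1, …, α_q`,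
`c` and all but finitely many `n`, ALL points `x ≠ α_l`, of whatever height, with
`|R(x) - a v_n| ≤ v_n ^ θ`, `R(x) = exp (3 d N(x) / q)`, satisfy `(1 - ε) q h(x) + c ≤ N(x)`.

4. The sequences `v_n = (n + 1) ^ b` and `v_n = b ^ n` have exponent of convergence at most `1 / b`
and `0`. -/
theorem result (K : Type) [Field K] [NumberField K] :
    (∀ (v : ℕ → ℝ) (τ θ t : ℝ), (∀ n, 1 ≤ v n) → 0 ≤ τ → ExpLe v τ → θ < 1 → 0 ≤ t → t ≤ 3 →
      ∃ E : Set ℝ, dimH E ≤ ENNReal.ofReal ((e t + τ) / (1 - θ)) ∧ ∀ a : ℝ, 0 < a → a ∉ E →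
        ∀ T : Set (HeightOneSpectrum (𝓞 K)), T.Finite → ∀ q : ℕ, 3 ≤ q → ∀ α : Fin q → K × K,
          Distinct α → ∀ c : ℝ, ∃ n₀ : ℕ, ∀ n : ℕ, n₀ ≤ n → ∀ x : K,
            (∀ l, x * (α l).2 - 1 * (α l).1 ≠ 0) →
              |Real.exp ((Module.finrank ℚ K : ℝ) * height x) - a * v n| ≤ (v n) ^ θ →
                (1 - t / 3) * q * height x + c ≤ counting T α x) ∧
    (∀ (v : ℕ → ℝ) (τ θ : ℝ), (∀ n, 1 ≤ v n) → 0 ≤ τ → ExpLe v τ → θ < 1 →
      ∃ E : Set ℝ, dimH E ≤ ENNReal.ofReal (τ / (1 - θ)) ∧ ∀ a : ℝ, 0 < a → a ∉ E →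
        ∃ t : ℝ, t < 3 ∧
        ∀ T : Set (HeightOneSpectrum (𝓞 K)), T.Finite → ∀ q : ℕ, 3 ≤ q → ∀ α : Fin q → K × K,
          Distinct α → ∀ c : ℝ, ∃ n₀ : ℕ, ∀ n : ℕ, n₀ ≤ n → ∀ x : K,
            (∀ l, x * (α l).2 - 1 * (α l).1 ≠ 0) →
              |Real.exp ((Module.finrank ℚ K : ℝ) * height x) - a * v n| ≤ (v n) ^ θ →
                (1 - t / 3) * q * height x + c ≤ counting T α x) ∧
    (∀ ε : ℝ, 0 < ε → ∃ ν : ℝ, 0 < ν ∧ ν ≤ 2 / 3 ∧
      ∀ (v : ℕ → ℝ) (τ θ : ℝ), (∀ n, 1 ≤ v n) → 0 ≤ τ → ExpLe v τ → θ < 1 →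
      ∃ E : Set ℝ, dimH E ≤ ENNReal.ofReal ((2 / 3 - ν + τ) / (1 - θ)) ∧
        ∀ a : ℝ, 0 < a → a ∉ E →
        ∀ T : Set (HeightOneSpectrum (𝓞 K)), T.Finite → ∀ q : ℕ, 3 ≤ q → ∀ α : Fin q → K × K,
          Distinct α → ∀ c : ℝ, ∃ n₀ : ℕ, ∀ n : ℕ, n₀ ≤ n → ∀ x : K,
            (∀ l, x * (α l).2 - 1 * (α l).1 ≠ 0) →
              |Real.exp (3 * (Module.finrank ℚ K : ℝ) / q * counting T α x) - a * v n| ≤
                (v n) ^ θ → (1 - ε) * q * height x + c ≤ counting T α x) ∧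
    (∀ b : ℝ, 0 < b → ExpLe (fun n : ℕ => ((n : ℝ) + 1) ^ b) (1 / b)) ∧
    (∀ b : ℝ, 1 < b → ExpLe (fun n : ℕ => b ^ n) 0) := by
  classical
  refine ⟨fun v τ θ t hv hτ hE hθ ht0 ht3 => heightsAll K t ht0 ht3 hv hτ hE hθ,
    fun v τ θ hv hτ hE hθ => ?_, fun ε hε => ?_,
    fun b hb => Pool.Agent.Y854.GM.expLe_pow b hb, fun b hb => Pool.Agent.Y854.GM.expLe_geom b hb⟩
  · have ht : ∀ k : ℕ, 24 / 11 < 3 - 1 / ((k : ℝ) + 2) ∧ 3 - 1 / ((k : ℝ) + 2) < 3 := by
      intro k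
      have hk : (0 : ℝ) ≤ k := Nat.cast_nonneg k
      have h1 : 1 / ((k : ℝ) + 2) ≤ 1 / 2 := one_div_le_one_div_of_le (by norm_num) (by linarith)
      have h2 : 0 < 1 / ((k : ℝ) + 2) := by positivity
      constructor <;> linarith
    choose E hE1 hE2 using fun k : ℕ => heightsAll K (3 - 1 / ((k : ℝ) + 2))
      (by linarith [(ht k).1]) (ht k).2.le hv hτ hE hθ
    refine ⟨⋂ k, E k, ?_, fun a ha haE => ?_⟩
    · have h1 : ∀ k : ℕ, dimH (⋂ k, E k) ≤
          ENNReal.ofReal ((2 / 3 * (1 / ((k : ℝ) + 2)) + τ) / (1 - θ)) := by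
        intro k
        refine (dimH_mono (Set.iInter_subset E k)).trans ((hE1 k).trans (le_of_eq ?_))
        rw [e_large (ht k).1]
        congr 2
        ring
      have h3 : Filter.Tendsto (fun k : ℕ => ENNReal.ofReal
          ((2 / 3 * (1 / ((k : ℝ) + 2)) + τ) / (1 - θ))) Filter.atTop
          (nhds (ENNReal.ofReal (τ / (1 - θ)))) := by
        apply ENNReal.tendsto_ofReal
        have h4 : Filter.Tendsto (fun k : ℕ => (1 : ℝ) / ((k : ℝ) + 2)) Filter.atTop
            (nhds 0) := by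
          refine Filter.Tendsto.div_atTop tendsto_const_nhds ?_
          exact Filter.tendsto_atTop_add_const_right _ _ tendsto_natCast_atTop_atTop
        have h5 := ((h4.const_mul (2 / 3)).add_const τ).div_const (1 - θ)
        simpa using h5
      exact ge_of_tendsto' h3 h1
    · rw [Set.mem_iInter] at haE
      push Not at haE
      obtain ⟨k, hk⟩ := haE
      exact ⟨_, (ht k).2, hE2 k a ha hk⟩
  · obtain ⟨ν, hν, hν1, h⟩ := radicals K ε hε
    refine ⟨ν, hν, hν1, fun v τ θ hv hτ hE hθ => ?_⟩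
    have : Countable (Idx K) := countableIdx K
    have h' : ∀ i : Idx K, ∃ E : Set ℝ, dimH E ≤ ENNReal.ofReal ((2 / 3 - ν + τ) / (1 - θ)) ∧
        ∀ a : ℝ, 0 < a → a ∉ E → 3 ≤ i.2.1.1 → Distinct i.2.1.2 →
        ∃ n₀ : ℕ, ∀ n : ℕ, n₀ ≤ n → ∀ x : K, (∀ l, x * (i.2.1.2 l).2 - 1 * (i.2.1.2 l).1 ≠ 0) →
          |Real.exp (3 * (Module.finrank ℚ K : ℝ) / i.2.1.1 *
            counting (i.1 : Set (HeightOneSpectrum (𝓞 K))) i.2.1.2 x) - a * v n| ≤ (v n) ^ θ →
            (1 - ε) * i.2.1.1 * height x + i.2.2 ≤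
              counting (i.1 : Set (HeightOneSpectrum (𝓞 K))) i.2.1.2 x := by
      intro i
      by_cases hi : 3 ≤ i.2.1.1 ∧ Distinct i.2.1.2
      · obtain ⟨E, h1, h2⟩ := h v τ θ hv hτ hE hθ i.1 i.2.1.1 hi.1 i.2.1.2 hi.2 i.2.2
        exact ⟨E, h1, fun a ha haE _ _ => h2 a ha haE⟩
      · exact ⟨∅, by simp, fun a _ _ h3 h4 => absurd ⟨h3, h4⟩ hi⟩
    choose E h1 h2 using h'
    refine ⟨⋃ i, E i, ?_, fun a ha haE T hT q hq α hα c => ?_⟩
    · rw [dimH_iUnion]
      exact iSup_le h1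
    · obtain ⟨k, hk⟩ := exists_nat_ge c
      obtain ⟨n₀, hn⟩ := h2 (hT.toFinset, ⟨q, α⟩, k) a ha
        (fun h => haE (Set.mem_iUnion.2 ⟨_, h⟩)) hq hα
      simp only [Set.Finite.coe_toFinset] at hn
      refine ⟨n₀, fun n hn1 x hx hw => ?_⟩
      have h3 := hn n hn1 x hx hw
      linarith

end Pool.Agent.Results.MP_4d5ce1_nt.NoExceptionsInWindows
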