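import Pool.Agent.X123.ML.Ae

/-!
# The abc conjecture for finite subsets of the line: rational points near a real number

Let `α_1, …, α_q` (`q ≥ 3`) be distinct points of the projective line over `ℚ` and `S` a finite set
of primes. We consider the real numbers `ξ` with infinitely many approximations
`|ξ - x| ≤ H(x) ^ (-τ)` by rationals `x` at which the truncated counting function is less than
`(q - κ) h(x) + c`, and determine or bound the Hausdorff dimension of their set. It follows that for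
almost all `ξ` a strong form of the conjectured inequality, with the real number `ξ` as an
additional target, holds for all the rationals close to `ξ`, for instance for all the convergents.
-/

set_option autoImplicit false

namespace Pool.Agent.Results.MP_4d5ce1_nt.RealApproximation

open Finset MeasureTheory

/-- The integer `x₀ a₁ - x₁ a₀`, where `x = x₀ / x₁` in lowest terms and `a = (a₀, a₁)`; for coprime
`a₀, a₁` the exponent of `p` in it is the intersection multiplicity at `p` of the points `x` and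
`[a₀ : a₁]` of the projective line, and it is `0` exactly if the two points are equal. -/
def form (a : ℤ × ℤ) (x : ℚ) : ℤ := x.num * a.2 - x.den * a.1

/-- The sum over the primes `p ∉ S` and over `ℓ` of the truncated local heights
`λ⁽¹⁾_p(α_ℓ, x)`: for coprime coordinates of `α_ℓ` this is `log p` if `p` divides
`form (α ℓ) x` and `0` otherwise. -/
noncomputable def N1 {q : ℕ} (α : Fin q → ℤ × ℤ) (S : Finset ℕ) (x : ℚ) : ℝ :=
  ∑ i, ∑ p ∈ (form (α i) x).natAbs.primeFactors \ S, Real.log p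

/-- The multiplicative height of a rational number; `h(x) = log H(x)`. -/
def H (x : ℚ) : ℕ := max x.num.natAbs x.den

/-- The real numbers `ξ` such that there are infinitely many `x ∈ ℚ`, different from all the `α_ℓ`,
with `∑_{p ∉ S} ∑_ℓ λ⁽¹⁾_p(α_ℓ, x) < (q - κ) h(x) + c` and `|ξ - x| ≤ H(x) ^ (-τ)`. -/
def W {q : ℕ} (α : Fin q → ℤ × ℤ) (S : Finset ℕ) (κ c τ : ℝ) : Set ℝ :=
  {ξ | {x : ℚ | (∀ i, form (α i) x ≠ 0) ∧ N1 α S x < (q - κ) * Real.log (H x) + c ∧
    |ξ - x| ≤ (H x : ℝ) ^ (-τ)}.Infinite}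

/-- The exponent in the second part: `80/133, 7/8, 1, 1` for `q = 3, 4, 5, 6` and `8/7` for
`q ≥ 7`. -/
noncomputable def expo (q : ℕ) : ℝ :=
  if q = 3 then 80 / 133 else if q = 4 then 7 / 8 else if q ≤ 6 then 1 else 8 / 7

/-- The threshold in the third part: `1` for `q = 3` and `8/7` for `q ≥ 4`. -/
noncomputable def thr (q : ℕ) : ℝ := if q = 3 then 1 else 8 / 7

theorem sel_low {q : ℕ} (hq : 3 ≤ q) {κ : ℝ} (h : κ ≤ 6 / 7 ∨ q = 3 ∧ κ ≤ 1) :
    Pool.Agent.H691R3.Sel.{0} q κ (2 - κ) := by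
  rcases h with h | ⟨rfl, h⟩
  · have h1 := Pool.Agent.H691R3.sel_all.{0} (by omega : 2 ≤ q) κ
    rwa [max_eq_left (by linarith)] at h1
  · exact Pool.Agent.W221.Exc.sel_below_one (by norm_num)
      (Pool.Agent.W221.Exc.sel_three_one 1 le_rfl) h

theorem sel_expo {q : ℕ} (hq : 3 ≤ q) : Pool.Agent.H691R3.Sel.{0} q 2 (expo q) := by
  unfold expo
  split_ifs with h1 h2 h3
  · subst h1
    have h := Pool.Agent.W221.Exc.sel_E3.{0} 2
    have e : Pool.Agent.W221.Exc.E3 2 = 80 / 133 := by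
      unfold Pool.Agent.W221.Exc.E3
      norm_num
    rwa [e] at h
  · subst h2
    have h := Pool.Agent.W221.Exc.sel_E3.{0} (3 / 2)
    have e : Pool.Agent.W221.Exc.E3 (3 / 2) = 7 / 8 := by
      unfold Pool.Agent.W221.Exc.E3
      norm_num
    rw [e] at h
    refine Pool.Agent.W221.Exc.sel_restrict (r := 3) (by norm_num) (by norm_num) ?_
    have e2 : ((3 : ℕ) : ℝ) * 2 / ((4 : ℕ) : ℝ) = 3 / 2 := by norm_num
    rw [e2]
    exact h
  · have hq6 : q = 5 ∨ q = 6 := by omega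
    refine Pool.Agent.W221.Exc.sel_restrict (r := 3) (by norm_num) hq ?_
    have h := Pool.Agent.W221.Exc.sel_E3.{0} (((3 : ℕ) : ℝ) * 2 / q)
    have e : Pool.Agent.W221.Exc.E3 (((3 : ℕ) : ℝ) * 2 / q) = 1 := by
      rcases hq6 with rfl | rfl <;> unfold Pool.Agent.W221.Exc.E3 <;> norm_num
    rwa [e] at h
  · have h := Pool.Agent.H691R3.sel_all.{0} (by omega : 2 ≤ q) 2
    rwa [max_eq_right (by norm_num)] at h

/-- Let `q ≥ 3`, let `α_1, …, α_q` be distinct points of the projective line over `ℚ` and `S` a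
finite set of primes.

* Let `0 ≤ κ < 2`, `τ > 0` and `c` be real. The Hausdorff dimension of the set of the real numbers
  with infinitely many approximations `|ξ - x| ≤ H(x) ^ (-τ)` by rationals `x` with
  `∑_{p ∉ S} ∑_ℓ λ⁽¹⁾_p(α_ℓ, x) < (q - κ) h(x) + c` is at least `min (1, (2 - κ) / τ)`, with
  equality if `κ ≤ 6 / 7` and if `q = 3` and `κ ≤ 1`.
* For `κ = 2`, that is for the approximations `x` which violate the conjectured inequality (even
  with `ε = 0`), the dimension is at most `expo q / τ`; in particular it is less than `1` for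
  `τ = 2`.
* For almost every real number `ξ` and all `ε > 0` there is `C` such that
  `(q - 2 - ε) h(x) + log (1 / |ξ - x|) ≤ ∑_{p ∉ S} ∑_ℓ λ⁽¹⁾_p(α_ℓ, x) + C` for all rationals
  `x ≠ α_ℓ` with `|ξ - x| ≤ H(x) ^ (- thr q - ε)`. -/
theorem result (q : ℕ) (hq : 3 ≤ q) (α : Fin q → ℤ × ℤ)
    (hcop : ∀ i, IsCoprime (α i).1 (α i).2)
    (hα : ∀ i j, i ≠ j → (α i).1 * (α j).2 ≠ (α j).1 * (α i).2) (S : Finset ℕ) :
    (∀ κ c τ : ℝ, 0 ≤ κ → κ < 2 → 0 < τ →
      ENNReal.ofReal (min 1 ((2 - κ) / τ)) ≤ dimH (W α S κ c τ) ∧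
      (κ ≤ 6 / 7 ∨ q = 3 ∧ κ ≤ 1 →
        dimH (W α S κ c τ) = ENNReal.ofReal (min 1 ((2 - κ) / τ)))) ∧
    (∀ c τ : ℝ, 0 < τ → dimH (W α S 2 c τ) ≤ ENNReal.ofReal (expo q / τ)) ∧
    (∀ᵐ ξ : ℝ, ∀ ε : ℝ, 0 < ε → ∃ C : ℝ, ∀ x : ℚ, (∀ i, form (α i) x ≠ 0) →
      |ξ - x| ≤ (H x : ℝ) ^ (-(thr q + ε)) →
      (q - 2 - ε) * Real.log (H x) + Real.log (1 / |ξ - x|) ≤ N1 α S x + C) := by
  have hq2 : 2 ≤ q := by omega
  refine ⟨fun κ c τ hκ0 hκ2 hτ => ⟨?_, fun hκ => ?_⟩, fun c τ hτ => ?_, ?_⟩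
  · exact Pool.Agent.X123.ML.lower_dim hq2 α hcop hα S c hκ0 hκ2 hτ
  · refine le_antisymm ?_ (Pool.Agent.X123.ML.lower_dim hq2 α hcop hα S c hκ0 hκ2 hτ)
    rw [ENNReal.ofReal_min]
    refine le_min ?_ ?_
    · rw [ENNReal.ofReal_one]
      refine (dimH_mono (Set.subset_univ _)).trans ?_
      rw [Real.dimH_univ]
    · exact Pool.Agent.X123.ML.upper_dim hq2 α hcop hα S c hκ0 (by linarith) hτ
        (sel_low hq hκ)
  · have hexpo : 0 ≤ expo q := by
      unfold expo
      split_ifs <;> norm_num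
    exact Pool.Agent.X123.ML.upper_dim hq2 α hcop hα S c (by norm_num) hexpo hτ (sel_expo hq)
  · have hthr0 : 0 < thr q := by
      unfold thr
      split_ifs <;> norm_num
    have hthr2 : thr q ≤ 2 := by
      unfold thr
      split_ifs <;> norm_num
    have hsel : ∀ κ : ℝ, κ ≤ 2 - thr q → Pool.Agent.H691R3.Sel.{0} q κ (2 - κ) := by
      intro κ hκ
      apply sel_low hq
      unfold thr at hκ
      split_ifs at hκ with h
      · exact Or.inr ⟨h, by linarith⟩
      · exact Or.inl (by linarith)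
    have h1 : ∀ᵐ ξ : ℝ, ∀ n : ℕ, ∃ C : ℝ, ∀ x : ℚ, (∀ i, form (α i) x ≠ 0) →
        |ξ - x| ≤ (H x : ℝ) ^ (-(thr q + 1 / (n + 1))) →
        (q - 2 - 1 / (n + 1)) * Real.log (H x) + Real.log (1 / |ξ - x|) ≤ N1 α S x + C := by
      rw [ae_all_iff]
      intro n
      exact Pool.Agent.X123.ML.ae_part hq2 α hcop hα S hthr0 hthr2 hsel (by positivity)
    filter_upwards [h1] with ξ hξ ε hε
    obtain ⟨n, hn⟩ := exists_nat_one_div_lt hε
    obtain ⟨C, hC⟩ := hξ n
    refine ⟨C, fun x hx1 hx2 => ?_⟩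
    have hH : (1 : ℝ) ≤ H x := by exact_mod_cast Pool.Agent.X123.ML.H_pos x
    have h2 := hC x hx1 (hx2.trans (Real.rpow_le_rpow_of_exponent_le hH (by linarith)))
    have h3 : 0 ≤ Real.log (H x) := Real.log_nonneg hH
    have h4 : (q - 2 - ε) * Real.log (H x) ≤ (q - 2 - 1 / (n + 1)) * Real.log (H x) :=
      mul_le_mul_of_nonneg_right (by linarith) h3
    linarith

end Pool.Agent.Results.MP_4d5ce1_nt.RealApproximation
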